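import Pool.Agent.Q187.IL.Rep

/-! Independence of `ℓ` of local Euler factors: one degree suffices. -/

set_option autoImplicit false

open Polynomial TensorProduct

namespace Pool.Agent.Q187.IL

/-- Motives over `ℚ` and their `ℓ`-adic realisations, restricted to a decomposition group `G` at
`p`, with inertia subgroup `I` and geometric Frobenius `F`. -/
structure Data where
  /-- Chow motives over `ℚ` with rational coefficients -/
  Mot : Type
  /-- the primes `ℓ ≠ p` -/
  Pr : Type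
  /-- the fields `ℚ_ℓ` -/
  K : Pr → Type
  [field : ∀ l, Field (K l)]
  [char : ∀ l, CharZero (K l)]
  /-- decomposition group -/
  G : Type
  [group : Group G]
  /-- inertia group -/
  I : Subgroup G
  [normal : I.Normal]
  /-- geometric Frobenius -/
  F : G
  /-- the realisation `V^i_ℓ(M)` -/
  V : ∀ (_ : Pr) (_ : Mot) (_ : ℤ), Type
  [acg : ∀ l M i, AddCommGroup (V l M i)]
  [mod : ∀ l M i, Module (K l) (V l M i)]
  [fin : ∀ l M i, FiniteDimensional (K l) (V l M i)]
  /-- Galois action -/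
  rho : ∀ l M i, Representation (K l) G (V l M i)

attribute [instance] Data.field Data.char Data.group Data.normal Data.acg Data.mod Data.fin

/-- The polynomial `det (1 - T F | V^i_ℓ(M)^I)`. -/
noncomputable def Data.factor (D : Data) (l : D.Pr) (M : D.Mot) (i : ℤ) : (D.K l)[X] :=
  revPoly (frob D.I (D.rho l M i) D.F)

/-- The assertion of the question for `M` and `i`: the polynomials have rational coefficients and
do not depend on `ℓ`. -/
def Data.Independent (D : Data) (M : D.Mot) (i : ℤ) : Prop :=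
  ∃ P : ℚ[X], ∀ l, D.factor l M i = P.map (algebraMap ℚ (D.K l))

/-- `ρ'` is the twist of `ρ` by the character `χ`. -/
def IsTwistOf {G K V V' : Type} [Group G] [Field K] [AddCommGroup V] [Module K V]
    [AddCommGroup V'] [Module K V'] (ρ' : Representation K G V') (ρ : Representation K G V)
    (χ : G →* Kˣ) : Prop :=
  ∃ e : V' ≃ₗ[K] V, ∀ g v, e (ρ' g v) = ((χ g : Kˣ) : K) • ρ g (e v)

/-- `ρ'` is the tensor product of `ρ` and `σ`. -/
def IsTensorOf {G K V V' W : Type} [Group G] [Field K] [AddCommGroup V] [Module K V]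
    [AddCommGroup V'] [Module K V'] [AddCommGroup W] [Module K W]
    (ρ' : Representation K G V') (ρ : Representation K G V) (σ : Representation K G W) : Prop :=
  ∃ e : V' ≃ₗ[K] V ⊗[K] W, ∀ g v, e (ρ' g v) = TensorProduct.map (ρ g) (σ g) (e v)

/-- Tate twists; `χ l` is the action on `ℚ_ℓ(1)`. -/
def Data.HasTwists (D : Data) (p : ℕ) : Prop :=
  ∃ χ : ∀ l, D.G →* (D.K l)ˣ, (∀ l, ∀ g ∈ D.I, χ l g = 1) ∧
    (∀ l, ((χ l D.F : (D.K l)ˣ) : D.K l) = (p : D.K l)⁻¹) ∧
    ∀ (M : D.Mot) (r : ℤ), ∃ N : D.Mot, ∀ l i,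
      IsTwistOf (D.rho l N i) (D.rho l M (i + 2 * r)) ((zpowGroupHom r).comp (χ l))

/-- The realisations `H^1(E)` of an elliptic curve over `ℚ`. -/
structure Curve (D : Data) where
  /-- `H^1(E)` -/
  W : D.Pr → Type
  [acg : ∀ l, AddCommGroup (W l)]
  [mod : ∀ l, Module (D.K l) (W l)]
  [fin : ∀ l, FiniteDimensional (D.K l) (W l)]
  /-- Galois action -/
  s : ∀ l, Representation (D.K l) D.G (W l)

attribute [instance] Curve.acg Curve.mod Curve.fin

/-- Good ordinary reduction at `p`. -/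
def Curve.IsOrdinary {D : Data} (E : Curve D) (p : ℕ) : Prop :=
  ∃ a : ℤ, ¬ (p : ℤ) ∣ a ∧ (∀ l, ∀ g ∈ D.I, E.s l g = 1) ∧
    ∀ l, (E.s l D.F).charpoly = X ^ 2 - C (a : D.K l) * X + C ((p : ℤ) : D.K l)

/-- Tensor products with `h^1(E)` exist. -/
def Curve.HasTensor {D : Data} (E : Curve D) : Prop :=
  ∀ M : D.Mot, ∃ N : D.Mot, ∀ l i,
    IsTensorOf (D.rho l N (i + 1)) (D.rho l M i) (E.s l)

variable {D : Data}

theorem independent_iff (M : D.Mot) (i : ℤ) : D.Independent M i ↔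
    ∃ t : ℕ → ℚ, ∀ l n, LinearMap.trace (D.K l) _ (frob D.I (D.rho l M i) (D.F ^ (n + 1))) =
      algebraMap ℚ (D.K l) (t n) := by
  have h := indep_iff D.K (fun l => inv D.I (D.rho l M i)) (fun l => frob D.I (D.rho l M i) D.F)
  refine h.trans ?_
  unfold IndepTrace
  simp only [frob_pow]

theorem independent_of_twist {p : ℕ} (hp : p.Prime) (h : D.HasTwists p) {i : ℤ}
    (h0 : ∀ M, D.Independent M i) (r : ℤ) (M : D.Mot) : D.Independent M (i + 2 * r) := by
  obtain ⟨χ, h1, h2, h3⟩ := h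
  obtain ⟨N, hN⟩ := h3 M r
  obtain ⟨t, ht⟩ := (independent_iff N i).1 (h0 N)
  rw [independent_iff]
  refine ⟨fun n => ((p : ℚ) ^ (r * (n + 1))) * t n, fun l n => ?_⟩
  obtain ⟨e, he⟩ := hN l i
  have hχ : ∀ g ∈ D.I, (zpowGroupHom r).comp (χ l) g = 1 := by
    intro g hg
    rw [MonoidHom.comp_apply, h1 l g hg, map_one]
  have h4 := trace_twist D.I (D.rho l M (i + 2 * r)) (D.rho l N i) (D.F ^ (n + 1))
    ((zpowGroupHom r).comp (χ l)) hχ e he
  rw [ht l n] at h4
  have hp0 : (p : D.K l) ≠ 0 := by exact_mod_cast hp.ne_zero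
  have h5 : (((zpowGroupHom r).comp (χ l) (D.F ^ (n + 1)) : (D.K l)ˣ) : D.K l) =
      ((p : D.K l) ^ (r * (n + 1)))⁻¹ := by
    rw [MonoidHom.comp_apply, map_pow, zpowGroupHom_apply, Units.val_zpow_eq_zpow_val,
      Units.val_pow_eq_pow_val, h2 l, ← zpow_natCast, ← zpow_mul, inv_zpow]
    congr 2
    push_cast
    ring
  rw [h5] at h4
  rw [map_mul, h4, map_zpow₀, map_natCast, mul_inv_cancel_left₀ (zpow_ne_zero _ hp0)]

theorem independent_of_curve {p : ℕ} (hp : p.Prime) (E : Curve D) (hE : E.IsOrdinary p)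
    (h3 : E.HasTensor) {i : ℤ} (h0 : ∀ M, D.Independent M (i + 1)) (M : D.Mot) :
    D.Independent M i := by
  obtain ⟨a, ha, h1, h2⟩ := hE
  obtain ⟨N, hN⟩ := h3 M
  obtain ⟨t, ht⟩ := (independent_iff N (i + 1)).1 (h0 N)
  rw [independent_iff]
  refine ⟨fun n => t n / (luc a p (n + 1) : ℚ), fun l n => ?_⟩
  obtain ⟨e, he⟩ := hN l i
  have h4 := trace_tensor D.I (D.rho l M i) (E.s l) (D.rho l N (i + 1)) (D.F ^ (n + 1)) (h1 l) e he
  rw [ht l n, map_pow (E.s l), trace_luc (E.s l D.F) a p (h2 l)] at h4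
  have h5 : ((luc a p (n + 1) : ℤ) : D.K l) ≠ 0 := by exact_mod_cast luc_ne_zero hp ha n
  rw [map_div₀, map_intCast, h4, mul_div_cancel_right₀ _ h5]

theorem independent_all {p : ℕ} (hp : p.Prime) (hT : D.HasTwists p) (E : Curve D)
    (hE : E.IsOrdinary p) (hE' : E.HasTensor) (i₀ : ℤ) (h0 : ∀ M, D.Independent M i₀) (M : D.Mot) (i : ℤ) : D.Independent M i := by
  have h1 : ∀ r : ℤ, ∀ M, D.Independent M (i₀ + 2 * r) :=
    fun r M => independent_of_twist hp hT h0 r M
  rcases Int.even_or_odd (i - i₀) with ⟨r, hr⟩ | ⟨r, hr⟩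
  · have h2 : i = i₀ + 2 * r := by omega
    rw [h2]
    exact h1 r M
  · have h2 : i + 1 = i₀ + 2 * (r + 1) := by omega
    refine independent_of_curve hp E hE hE' (fun N => ?_) M
    rw [h2]
    exact h1 (r + 1) N

end Pool.Agent.Q187.IL
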