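import Pool.Agent.TH658.Eq.Newt

/-! Rationality and independence of `det (1 - T f)` in terms of the traces of powers. -/

set_option autoImplicit false

open Polynomial

namespace Pool.Agent.Q187.IL

section
variable {K V : Type} [Field K] [AddCommGroup V] [Module K V] [FiniteDimensional K V]

/-- `det (1 - T f)`. -/
noncomputable def revPoly (f : V →ₗ[K] V) : K[X] := f.charpoly.reverse

theorem revPoly_eq (f : V →ₗ[K] V) :
    revPoly f = (LinearMap.toMatrix (Module.finBasis K V) (Module.finBasis K V) f).charpolyRev := by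
  rw [revPoly, ← Matrix.reverse_charpoly, LinearMap.charpoly_toMatrix]

theorem trace_pow_eq (f : V →ₗ[K] V) (n : ℕ) : LinearMap.trace K V (f ^ n) =
    ((LinearMap.toMatrix (Module.finBasis K V) (Module.finBasis K V) f) ^ n).trace := by
  rw [LinearMap.trace_eq_matrix_trace K (Module.finBasis K V), LinearMap.toMatrix_pow]

theorem newton (f : V →ₗ[K] V) (k : ℕ) :
    (revPoly f).coeff (k + 1) * ((k : K) + 1) =
      - ∑ p ∈ Finset.HasAntidiagonal.antidiagonal k,
        (revPoly f).coeff p.1 * LinearMap.trace K V (f ^ (p.2 + 1)) := by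
  rw [revPoly_eq, Pool.Agent.TH658.Eq.newton]
  congr 1
  refine Finset.sum_congr rfl fun p _ => ?_
  rw [trace_pow_eq]

theorem coeff_zero (f : V →ₗ[K] V) : (revPoly f).coeff 0 = 1 := by
  rw [revPoly_eq, coeff_zero_eq_eval_zero, Matrix.eval_charpolyRev]

theorem natDegree_le (f : V →ₗ[K] V) : (revPoly f).natDegree ≤ Module.finrank K V := by
  refine (Polynomial.reverse_natDegree_le _).trans ?_
  rw [LinearMap.charpoly_natDegree]

end

section
variable {Λ : Type} (K : Λ → Type) [∀ l, Field (K l)] [∀ l, CharZero (K l)]
  (V : Λ → Type) [∀ l, AddCommGroup (V l)] [∀ l, Module (K l) (V l)]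
  [∀ l, FiniteDimensional (K l) (V l)] (f : ∀ l, V l →ₗ[K l] V l)

/-- `det (1 - T f l)` is a polynomial with rational coefficients that does not depend on `l`. -/
def Indep : Prop := ∃ P : ℚ[X], ∀ l, revPoly (f l) = P.map (algebraMap ℚ (K l))

/-- The traces of the powers of `f l` are rational and do not depend on `l`. -/
def IndepTrace : Prop := ∃ t : ℕ → ℚ, ∀ l n, LinearMap.trace (K l) (V l) (f l ^ (n + 1)) =
  algebraMap ℚ (K l) (t n)

theorem indepTrace_of_indep (h : Indep K V f) : IndepTrace K V f := by
  obtain ⟨P, hP⟩ := h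
  have key : ∀ n : ℕ, ∃ t : ℚ, ∀ l, LinearMap.trace (K l) (V l) (f l ^ (n + 1)) =
      algebraMap ℚ (K l) t := by
    intro n
    induction n using Nat.strong_induction_on with
    | _ n ih =>
      choose! t ht using ih
      refine ⟨-(P.coeff (n + 1) * ((n : ℚ) + 1)) -
        ∑ p ∈ (Finset.HasAntidiagonal.antidiagonal n).erase (0, n), P.coeff p.1 * t p.2,
        fun l => ?_⟩
      have h1 := newton (f l) n
      have h0 : (0, n) ∈ Finset.HasAntidiagonal.antidiagonal n :=
        Finset.HasAntidiagonal.mem_antidiagonal.2 (by simp)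
      rw [← Finset.add_sum_erase _ _ h0, coeff_zero, one_mul] at h1
      have h2 : ∑ p ∈ (Finset.HasAntidiagonal.antidiagonal n).erase (0, n),
          (revPoly (f l)).coeff p.1 * LinearMap.trace (K l) (V l) (f l ^ (p.2 + 1)) =
          algebraMap ℚ (K l)
            (∑ p ∈ (Finset.HasAntidiagonal.antidiagonal n).erase (0, n), P.coeff p.1 * t p.2) := by
        rw [map_sum]
        refine Finset.sum_congr rfl fun p hp => ?_
        have h3 := Finset.HasAntidiagonal.mem_antidiagonal.1 (Finset.mem_of_mem_erase hp)
        have h4 : p ≠ (0, n) := Finset.ne_of_mem_erase hp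
        have h5 : p.2 < n := by
          by_contra hc
          apply h4
          ext
          · simp; omega
          · simp; omega
        rw [hP l, coeff_map, ht p.2 h5 l, map_mul]
      rw [h2, hP l, coeff_map] at h1
      rw [map_sub, map_neg, map_mul, map_add, map_one, map_natCast]
      linear_combination h1
  choose t ht using key
  exact ⟨t, fun l n => ht n l⟩

theorem indep_of_indepTrace (h : IndepTrace K V f) : Indep K V f := by
  classical
  obtain ⟨t, ht⟩ := h
  have key : ∀ n : ℕ, ∃ c : ℚ, ∀ l, (revPoly (f l)).coeff n = algebraMap ℚ (K l) c := by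
    intro n
    induction n using Nat.strong_induction_on with
    | _ n ih =>
      rcases n with _ | n
      · exact ⟨1, fun l => by rw [coeff_zero, map_one]⟩
      · choose! c hc using ih
        refine ⟨-(∑ p ∈ Finset.HasAntidiagonal.antidiagonal n, c p.1 * t p.2) / ((n : ℚ) + 1),
          fun l => ?_⟩
        have h1 := newton (f l) n
        have h2 : ∑ p ∈ Finset.HasAntidiagonal.antidiagonal n,
            (revPoly (f l)).coeff p.1 * LinearMap.trace (K l) (V l) (f l ^ (p.2 + 1)) =
            algebraMap ℚ (K l)
              (∑ p ∈ Finset.HasAntidiagonal.antidiagonal n, c p.1 * t p.2) := by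
          rw [map_sum]
          refine Finset.sum_congr rfl fun p hp => ?_
          have h3 := Finset.HasAntidiagonal.mem_antidiagonal.1 hp
          rw [hc p.1 (by omega) l, ht l p.2, map_mul]
        rw [h2] at h1
        have h3 : ((n : K l) + 1) ≠ 0 := by exact_mod_cast Nat.succ_ne_zero n
        have h4 : algebraMap ℚ (K l) ((n : ℚ) + 1) = (n : K l) + 1 := by
          rw [map_add, map_one, map_natCast]
        rw [map_div₀, h4, map_neg, eq_div_iff h3, h1]
  choose c hc using key
  by_cases hΛ : Nonempty Λ
  · obtain ⟨l0⟩ := hΛ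
    refine ⟨∑ n ∈ Finset.range (Module.finrank (K l0) (V l0) + 1), monomial n (c n), fun l => ?_⟩
    ext n
    rw [hc n l, coeff_map]
    congr 1
    rw [finsetSum_coeff]
    simp only [coeff_monomial]
    rw [Finset.sum_ite_eq' (Finset.range (Module.finrank (K l0) (V l0) + 1)) n c]
    split_ifs with h1
    · rfl
    · have h2 : (revPoly (f l0)).coeff n = 0 := by
        apply coeff_eq_zero_of_natDegree_lt
        have := natDegree_le (f l0)
        rw [Finset.mem_range] at h1
        omega
      rw [hc n l0] at h2
      exact (map_eq_zero _).1 h2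
  · exact ⟨0, fun l => (hΛ ⟨l⟩).elim⟩

theorem indep_iff : Indep K V f ↔ IndepTrace K V f :=
  ⟨indepTrace_of_indep K V f, indep_of_indepTrace K V f⟩

end

end Pool.Agent.Q187.IL
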