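import Pool.Agent.Q187.IL.Newton

/-! Frobenius on the invariants of inertia: twists and tensor products. -/

set_option autoImplicit false

open Polynomial TensorProduct

namespace Pool.Agent.Q187.IL

section
variable {G : Type} [Group G] {K V V' W : Type} [Field K]
  [AddCommGroup V] [Module K V] [AddCommGroup V'] [Module K V'] [AddCommGroup W] [Module K W]

/-- The invariants of the subgroup `I`. -/
def inv (I : Subgroup G) (ρ : Representation K G V) : Submodule K V where
  carrier := {v | ∀ g ∈ I, ρ g v = v}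
  add_mem' ha hb g hg := by rw [map_add, ha g hg, hb g hg]
  zero_mem' g _ := map_zero _
  smul_mem' c v hv g hg := by rw [map_smul, hv g hg]

theorem mem_inv {I : Subgroup G} {ρ : Representation K G V} {v : V} :
    v ∈ inv I ρ ↔ ∀ g ∈ I, ρ g v = v := Iff.rfl

theorem frob_mem (I : Subgroup G) [I.Normal] (ρ : Representation K G V) (F : G) (v : V)
    (hv : v ∈ inv I ρ) : ρ F v ∈ inv I ρ := by
  intro g hg
  have h1 : F⁻¹ * g * F ∈ I := by
    have := ‹I.Normal›.conj_mem g hg F⁻¹
    rwa [inv_inv] at this
  have h2 : g * F = F * (F⁻¹ * g * F) := by group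
  rw [← Module.End.mul_apply, ← map_mul, h2, map_mul, Module.End.mul_apply, hv _ h1]

/-- The action of `F` on the invariants of the normal subgroup `I`. -/
def frob (I : Subgroup G) [I.Normal] (ρ : Representation K G V) (F : G) :
    inv I ρ →ₗ[K] inv I ρ := (ρ F).restrict (frob_mem I ρ F)

theorem frob_coe (I : Subgroup G) [I.Normal] (ρ : Representation K G V) (F : G)
    (v : inv I ρ) : (frob I ρ F v : V) = ρ F v := rfl

theorem frob_pow (I : Subgroup G) [I.Normal] (ρ : Representation K G V) (F : G) (n : ℕ) :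
    frob I ρ F ^ n = frob I ρ (F ^ n) := by
  ext v
  induction n generalizing v with
  | zero => simp [frob_coe]
  | succ n ih =>
    rw [pow_succ, Module.End.mul_apply, ih, frob_coe, frob_coe, frob_coe, pow_succ, map_mul,
      Module.End.mul_apply]

variable (I : Subgroup G) [I.Normal]

/-- If `V'` is the twist of `V` by a character that is trivial on `I`, the trace is multiplied by
the value of the character. -/
theorem trace_twist (ρ : Representation K G V) (ρ' : Representation K G V') (F : G)
    (χ : G →* Kˣ) (hχ : ∀ g ∈ I, χ g = 1) (e : V' ≃ₗ[K] V)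
    (he : ∀ g v, e (ρ' g v) = ((χ g : Kˣ) : K) • ρ g (e v)) :
    LinearMap.trace K _ (frob I ρ' F) = ((χ F : Kˣ) : K) * LinearMap.trace K _ (frob I ρ F) := by
  have h1 : ∀ v, v ∈ inv I ρ' ↔ e v ∈ inv I ρ := by
    intro v
    rw [mem_inv, mem_inv]
    refine forall₂_congr fun g hg => ?_
    rw [← e.injective.eq_iff, he, hχ g hg, Units.val_one, one_smul]
  have h2 : (inv I ρ').map (e : V' →ₗ[K] V) = inv I ρ := by
    ext v
    rw [Submodule.mem_map]
    constructor
    · rintro ⟨w, hw, rfl⟩
      exact (h1 w).1 hw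
    · intro hv
      exact ⟨e.symm v, (h1 _).2 (by simpa using hv), by simp⟩
  let E : inv I ρ' ≃ₗ[K] inv I ρ := e.submoduleMap _ |>.trans (LinearEquiv.ofEq _ _ h2)
  have hE : ∀ v : inv I ρ', ((E v : inv I ρ) : V) = e v := fun v => rfl
  have h3 : E.conj (frob I ρ' F) = ((χ F : Kˣ) : K) • frob I ρ F := by
    ext v
    rw [LinearEquiv.conj_apply_apply, hE, frob_coe, he, LinearMap.smul_apply,
      Submodule.coe_smul, frob_coe]
    congr 2
    have := hE (E.symm v)
    rw [LinearEquiv.apply_symm_apply] at this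
    rw [← this]
  rw [← LinearMap.trace_conj' (frob I ρ' F) E, h3, map_smul, smul_eq_mul]

/-- If `V' = V ⊗ W` and `I` acts trivially on `W`, the traces are multiplied. -/
theorem trace_tensor [FiniteDimensional K V] [FiniteDimensional K W]
    (ρ : Representation K G V) (σ : Representation K G W) (ρ' : Representation K G V') (F : G)
    (hσ : ∀ g ∈ I, σ g = 1) (e : V' ≃ₗ[K] V ⊗[K] W)
    (he : ∀ g v, e (ρ' g v) = TensorProduct.map (ρ g) (σ g) (e v)) :
    LinearMap.trace K _ (frob I ρ' F) =
      LinearMap.trace K _ (frob I ρ F) * LinearMap.trace K _ (σ F) := by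
  classical
  let j : (inv I ρ) ⊗[K] W →ₗ[K] V ⊗[K] W := TensorProduct.map (inv I ρ).subtype LinearMap.id
  have hj : Function.Injective j :=
    Module.Flat.rTensor_preserves_injective_linearMap (M := W) (inv I ρ).subtype
      (Submodule.subtype_injective _)
  have h1 : ∀ x, e.symm (j x) ∈ inv I ρ' := by
    intro x g hg
    apply e.injective
    rw [he, LinearEquiv.apply_symm_apply, hσ g hg]
    induction x using TensorProduct.induction_on with
    | zero => simp
    | tmul v w =>
      show TensorProduct.map (ρ g) 1 ((v : V) ⊗ₜ[K] w) = (v : V) ⊗ₜ[K] w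
      rw [TensorProduct.map_tmul, v.2 g hg, Module.End.one_apply]
    | add x y hx hy => rw [map_add, map_add, hx, hy]
  let E0 : (inv I ρ) ⊗[K] W →ₗ[K] inv I ρ' :=
    LinearMap.codRestrict (inv I ρ') ((e.symm : V ⊗[K] W →ₗ[K] V') ∘ₗ j) h1
  have hE0 : ∀ x, ((E0 x : inv I ρ') : V') = e.symm (j x) := fun x => rfl
  have hinj : Function.Injective E0 := by
    intro x y hxy
    have := congrArg (fun z : inv I ρ' => e (z : V')) hxy
    simp only [hE0, LinearEquiv.apply_symm_apply] at this
    exact hj this
  have hsurj : Function.Surjective E0 := by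
    intro y
    let b := Module.finBasis K W
    obtain ⟨c, hc⟩ := TensorProduct.eq_repr_basis_right b (e (y : V'))
    have h2 : ∀ i, c i ∈ inv I ρ := by
      intro i g hg
      have h3 := y.2 g hg
      have h4 := congrArg e h3
      rw [he, ← hc, hσ g hg] at h4
      rw [Finsupp.sum, map_sum] at h4
      have h5 : ∑ i ∈ c.support, TensorProduct.map (ρ g) (1 : W →ₗ[K] W) (c i ⊗ₜ[K] b i) =
          (c.mapRange (ρ g) (map_zero _)).sum fun i m => m ⊗ₜ[K] b i := by
        rw [Finsupp.sum_mapRange_index (fun i => by rw [TensorProduct.zero_tmul])]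
        rfl
      rw [h5] at h4
      have h6 := TensorProduct.sum_tmul_basis_right_injective (M := V) b
        (a₁ := c.mapRange (ρ g) (map_zero _)) (a₂ := c) (by simpa [Finsupp.sum] using h4)
      have h7 := DFunLike.congr_fun h6 i
      rwa [Finsupp.mapRange_apply] at h7
    refine ⟨∑ i ∈ c.support, (⟨c i, h2 i⟩ : inv I ρ) ⊗ₜ[K] b i, ?_⟩
    apply Subtype.ext
    rw [hE0, LinearEquiv.symm_apply_eq, ← hc, map_sum]
    rfl
  let E : (inv I ρ) ⊗[K] W ≃ₗ[K] inv I ρ' := LinearEquiv.ofBijective E0 ⟨hinj, hsurj⟩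
  have hE : ∀ x, ((E x : inv I ρ') : V') = e.symm (j x) := fun x => rfl
  have h3 : E.conj (TensorProduct.map (frob I ρ F) (σ F)) = frob I ρ' F := by
    apply LinearMap.ext
    intro y
    obtain ⟨x, rfl⟩ := E.surjective y
    rw [LinearEquiv.conj_apply_apply, LinearEquiv.symm_apply_apply]
    apply Subtype.ext
    rw [frob_coe, hE, hE, LinearEquiv.symm_apply_eq, he, LinearEquiv.apply_symm_apply]
    induction x using TensorProduct.induction_on with
    | zero => simp
    | tmul v w => rfl
    | add x y hx hy =>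
      rw [map_add, map_add, map_add, map_add]
      rw [hx, hy]
  rw [← h3, LinearMap.trace_conj', LinearMap.trace_tensorProduct']

end

section
variable {K W : Type} [Field K] [AddCommGroup W] [Module K W] [FiniteDimensional K W]

/-- The traces of the powers of an endomorphism with characteristic polynomial
`X ^ 2 - a X + q`. -/
def luc (a q : ℤ) : ℕ → ℤ
  | 0 => 2
  | 1 => a
  | n + 2 => a * luc a q (n + 1) - q * luc a q n

theorem luc_mod (a q : ℤ) (n : ℕ) : q ∣ luc a q (n + 1) - a ^ (n + 1) := by
  induction n with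
  | zero => simp [luc]
  | succ n ih =>
    obtain ⟨k, hk⟩ := ih
    refine ⟨a * k - luc a q n, ?_⟩
    rw [luc, pow_succ]
    linear_combination a * hk

theorem luc_ne_zero {a : ℤ} {p : ℕ} (hp : p.Prime) (ha : ¬ (p : ℤ) ∣ a) (n : ℕ) :
    luc a p (n + 1) ≠ 0 := by
  intro h
  have h1 := luc_mod a p n
  rw [h, zero_sub, dvd_neg] at h1
  exact ha ((Nat.prime_iff_prime_int.1 hp).dvd_of_dvd_pow h1)

theorem trace_luc (A : W →ₗ[K] W) (a q : ℤ)
    (hA : A.charpoly = X ^ 2 - C (a : K) * X + C (q : K)) (n : ℕ) :
    LinearMap.trace K W (A ^ n) = (luc a q n : K) := by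
  have hdeg : A.charpoly.natDegree = 2 := by
    rw [hA]
    compute_degree!
  have hfin : Module.finrank K W = 2 := by rw [← LinearMap.charpoly_natDegree A, hdeg]
  have hCH : A ^ 2 = (a : K) • A - (q : K) • 1 := by
    have h1 := LinearMap.aeval_self_charpoly A
    rw [hA] at h1
    simp only [map_add, map_sub, map_mul, map_pow, aeval_X, aeval_C] at h1
    rw [Algebra.algebraMap_eq_smul_one, Algebra.algebraMap_eq_smul_one, smul_mul_assoc,
      one_mul] at h1
    have h2 : A ^ 2 - ((a : K) • A - (q : K) • 1) = 0 := by rw [← h1]; abel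
    exact sub_eq_zero.1 h2
  have htr : LinearMap.trace K W A = (a : K) := by
    classical
    have b := Module.finBasisOfFinrankEq K W hfin
    rw [LinearMap.trace_eq_matrix_trace K b, Matrix.trace_eq_neg_charpoly_coeff,
      LinearMap.charpoly_toMatrix, hA, Fintype.card_fin, coeff_add, coeff_sub, coeff_X_pow,
      coeff_C_mul, coeff_X, coeff_C]
    norm_num
  induction n using Nat.strong_induction_on with
  | _ n ih =>
    rcases n with _ | _ | n
    · rw [pow_zero, Module.End.one_eq_id, LinearMap.trace_id, hfin]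
      simp [luc]
    · rw [zero_add, pow_one, htr]
      simp [luc]
    · have h1 : A ^ (n + 1 + 1) = (a : K) • A ^ (n + 1) - (q : K) • A ^ n := by
        rw [show n + 1 + 1 = 2 + n by ring, pow_add, hCH, sub_mul, smul_mul_assoc,
          smul_mul_assoc, one_mul, ← pow_succ']
      rw [h1, map_sub, map_smul, map_smul, ih (n + 1) (by omega), ih n (by omega), luc]
      push_cast
      rw [smul_eq_mul, smul_eq_mul]

end

end Pool.Agent.Q187.IL
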